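import Pool.Agent.H6P.Defs

/-!
The ending of the recursion for a tree with one additional vertex of arbitrary adjacency: the
additional vertex consists of the last arena, of pieces of the body and of connecting letters.
-/

namespace Pool.Agent.H31X

open SimpleGraph Pool.Agent.H70IM Pool.Agent.H7FA Pool.Agent.H6L Pool.Agent.H6P

universe u

variable {V : Type u}

/-- Letters `x i`, connected sets `D j` (for the edges from `pa j` to `j`) outside the arena `As`,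
connected pieces `Bp i` at the letters `x i`, `i ∈ X`, and sets `C i` of possible connectors. -/
structure XConf (G : SimpleGraph V) (pa : ℕ → ℕ) (X : Set ℕ) (L : ℕ) (As : Set V)
    (x : ℕ → V) (D Bp C : ℕ → Set V) : Prop where
  ne : ∀ i < L, ∀ i' < L, i ≠ i' → x i ≠ x i' ∧ ¬ G.Adj (x i) (x i')
  xA : ∀ i < L, x i ∉ As
  connD : ∀ j, 1 ≤ j → j < L → Conn G (D j)
  touch_pa : ∀ j, 1 ≤ j → j < L → ∃ a ∈ D j, G.Adj a (x (pa j))
  touch : ∀ j, 1 ≤ j → j < L → ∃ a ∈ D j, G.Adj a (x j)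
  anti : ∀ j, 1 ≤ j → j < L → ∀ i < L, i ≠ pa j → i ≠ j → ∀ a ∈ D j, ¬ G.Adj a (x i)
  xD : ∀ j, 1 ≤ j → j < L → ∀ i < L, x i ∉ D j
  antiD : ∀ j, 1 ≤ j → j < L → ∀ j', 1 ≤ j' → j' < L → j ≠ j' → Anti G (D j) (D j')
  DA : ∀ j, 1 ≤ j → j < L → Disjoint As (cl G (D j))
  connB : ∀ i < L, i ∈ X → Conn G (Bp i)
  xB : ∀ i < L, i ∈ X → ∃ a ∈ Bp i, G.Adj a (x i)
  xB' : ∀ i < L, i ∈ X → ∀ i' < L, x i' ∉ Bp i
  farB : ∀ i < L, i ∈ X → ∀ i' < L, i' ∉ X → ∀ a ∈ Bp i, ¬ G.Adj a (x i')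
  antiB : ∀ i < L, i ∈ X → ∀ j, 1 ≤ j → j < L → Anti G (Bp i) (D j)
  CB : ∀ i < L, i ∈ X → C i ⊆ cl G (Bp i)
  CD : ∀ i < L, i ∈ X → ∀ j, 1 ≤ j → j < L → Disjoint (C i) (D j)
  CDX : ∀ i < L, i ∈ X → ∀ j, 1 ≤ j → j < L → j ∉ X → pa j ∉ X → Disjoint (C i) (cl G (D j))

open Classical in
/-- the end of the edge from `pa j` to `j` to which `D j` is given -/
noncomputable def asg (pa : ℕ → ℕ) (X : Set ℕ) (j : ℕ) : ℕ :=
  if j ∈ X then j else if pa j ∈ X then pa j else j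

lemma asg_cases (pa : ℕ → ℕ) (X : Set ℕ) (j : ℕ) :
    asg pa X j = j ∨ (asg pa X j = pa j ∧ j ∉ X ∧ pa j ∈ X) := by
  unfold asg
  by_cases h1 : j ∈ X
  · left
    rw [if_pos h1]
  · by_cases h2 : pa j ∈ X
    · right
      rw [if_neg h1, if_pos h2]
      exact ⟨rfl, h1, h2⟩
    · left
      rw [if_neg h1, if_neg h2]

/-- a piece which belongs to a node outside `X` belongs to an edge outside `X` -/
lemma asg_notMem {pa : ℕ → ℕ} {X : Set ℕ} {j : ℕ} (h : asg pa X j ∉ X) :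
    asg pa X j = j ∧ j ∉ X ∧ pa j ∉ X := by
  unfold asg at h ⊢
  by_cases h1 : j ∈ X
  · rw [if_pos h1] at h
    exact absurd h1 h
  · by_cases h2 : pa j ∈ X
    · rw [if_neg h1, if_pos h2] at h
      exact absurd h2 h
    · rw [if_neg h1, if_neg h2]
      exact ⟨rfl, h1, h2⟩

/-- the branch sets of the nodes -/
def brX (pa : ℕ → ℕ) (X : Set ℕ) (L : ℕ) (x : ℕ → V) (D : ℕ → Set V) (i : ℕ) : Set V :=
  {v | v = x i ∨ ∃ j, 1 ≤ j ∧ j < L ∧ asg pa X j = i ∧ v ∈ D j}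

/-- the branch set of the additional vertex -/
def hubX (X : Set ℕ) (L : ℕ) (A : Set V) (Bp : ℕ → Set V) (c : ℕ → V) : Set V :=
  {v | v ∈ A ∨ ∃ i, i < L ∧ i ∈ X ∧ (v ∈ Bp i ∨ v = c i)}

theorem goalX_of_conf [Fintype V] {G : SimpleGraph V} {mu : Set V → ℝ} {K : ℝ}
    {β : Set V → Set V} (hH : MHaven G mu K β) {w : V → ℝ} (hw : Wts G w) {pa : ℕ → ℕ}
    (hpa : ∀ j, 1 ≤ j → pa j < j) {X : Set ℕ} {L : ℕ} {As : Set V}
    (hAs : MArena G mu K β As) (hK : mu (bd G As) + L ≤ K) {x : ℕ → V} {D Bp C : ℕ → Set V}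
    {k₁ : ℝ}
    (hrob : ∀ i < L, i ∈ X → ∀ A'', MBelow G mu K β As A'' L → wt w (C i \ bd G A'') ≤ k₁)
    (hC : ∀ i < L, i ∈ X → k₁ + L < wt w (C i))
    (hc : XConf G pa X L As x D Bp C) : GoalX G pa X L := by
  classical
  -- the final arena
  obtain ⟨T, hT⟩ : ∃ T : Finset V, T = ((Finset.range L).filter (· ∉ X)).image x := ⟨_, rfl⟩
  obtain ⟨T', hT'⟩ : ∃ T' : Finset V, T' = (Finset.range L).image x := ⟨_, rfl⟩
  have hTc : (T.card : ℝ) ≤ L := by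
    have h1 : T.card ≤ L := by
      rw [hT]
      refine Finset.card_image_le.trans ((Finset.card_filter_le _ _).trans ?_)
      rw [Finset.card_range]
    exact_mod_cast h1
  have hTc' : (T'.card : ℝ) ≤ L := by
    have h1 : T'.card ≤ L := by
      rw [hT']
      refine Finset.card_image_le.trans ?_
      rw [Finset.card_range]
    exact_mod_cast h1
  have hTm : ∀ i < L, i ∉ X → x i ∈ T := by
    intro i hi hiX
    rw [hT, Finset.mem_image]
    exact ⟨i, by simp [hi, hiX], rfl⟩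
  have hTm' : ∀ i < L, x i ∈ T' := by
    intro i hi
    rw [hT', Finset.mem_image]
    exact ⟨i, by simp [hi], rfl⟩
  obtain ⟨A, hA, hAT, -⟩ := hH.cut_below hAs (cl G (T : Set V)) (b := L)
    ((hH.mono Set.inter_subset_left).trans ((cst_cl_finset_le hH.toCst T).trans hTc)) hK
  rw [Set.disjoint_left] at hAT
  have hAx : ∀ i < L, i ∉ X → x i ∉ A ∧ ∀ a ∈ A, ¬ G.Adj a (x i) := by
    intro i hi hiX
    refine ⟨fun h => hAT h (Or.inl (Finset.mem_coe.2 (hTm i hi hiX))), fun a ha haa => ?_⟩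
    exact hAT ha (Or.inr ⟨x i, Finset.mem_coe.2 (hTm i hi hiX), haa.symm⟩)
  have hAD : ∀ j, 1 ≤ j → j < L → ∀ a ∈ A, a ∉ D j ∧ ∀ v ∈ D j, ¬ G.Adj a v := by
    intro j h1 h2 a ha
    have h3 := Set.disjoint_left.1 (hc.DA j h1 h2) (hA.sub ha)
    exact ⟨fun h => h3 (Or.inl h), fun v hv hav => h3 (Or.inr ⟨v, hv, hav.symm⟩)⟩
  -- the connectors
  have hex : ∀ i, ∃ c : V, i < L → i ∈ X → c ∈ C i ∧ c ∈ bd G A ∧ c ∉ cl G (T' : Set V) := by
    intro i
    by_cases hi : i < L ∧ i ∈ X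
    · obtain ⟨hi, hiX⟩ := hi
      have h1 := hrob i hi hiX A hA
      have h2 := hC i hi hiX
      have h3 := wt_cl_finset_le hw T'
      have h4 : 0 < wt w (C i \ ((C i \ bd G A) ∪ cl G (T' : Set V))) := by
        have h5 := wt_diff_ge w (C i) ((C i \ bd G A) ∪ cl G (T' : Set V))
        have h6 : wt w (((C i \ bd G A) ∪ cl G (T' : Set V)) ∩ C i) ≤ k₁ + L := by
          refine (wt_mono hw.nonneg Set.inter_subset_left).trans ?_
          refine (wt_union_le hw.nonneg _ _).trans ?_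
          linarith
        linarith
      obtain ⟨c, hc⟩ := exists_mem_of_wt_pos h4
      refine ⟨c, fun _ _ => ⟨hc.1, ?_, fun h => hc.2 (Or.inr h)⟩⟩
      by_contra hcon
      exact hc.2 (Or.inl ⟨hc.1, hcon⟩)
    · obtain ⟨v, -⟩ := (hA.arena.conn hH).1
      exact ⟨v, fun h1 h2 => absurd ⟨h1, h2⟩ hi⟩
  choose c hcc using hex
  have hcx : ∀ i < L, i ∈ X → ∀ i' < L, c i ≠ x i' ∧ ¬ G.Adj (c i) (x i') := by
    intro i hi hiX i' hi'
    obtain ⟨-, -, h3⟩ := hcc i hi hiX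
    refine ⟨fun h => h3 (Or.inl (h ▸ Finset.mem_coe.2 (hTm' i' hi'))), fun h => ?_⟩
    exact h3 (Or.inr ⟨x i', Finset.mem_coe.2 (hTm' i' hi'), h.symm⟩)
  have hmD : ∀ {i : ℕ} {v : V}, v ∈ brX pa X L x D i → v = x i ∨
      ∃ j, 1 ≤ j ∧ j < L ∧ asg pa X j = i ∧ v ∈ D j := fun h => h
  refine ⟨brX pa X L x D, hubX X L A Bp c, ⟨?_, ?_, ?_, ?_⟩, ?_, ?_⟩
  · -- connectedness of the branch sets
    intro i hi
    refine ⟨⟨x i, Or.inl rfl⟩, ?_⟩
    rintro S ⟨v, hv, hvS⟩ hS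
    have hDS : ∀ j, 1 ≤ j → j < L → asg pa X j = i → (∃ a ∈ D j, a ∈ S) → D j ⊆ S := by
      intro j h1 h2 h3 h4
      exact (hc.connD j h1 h2).2 S h4 fun a ha haS b hb hab =>
        hS a (Or.inr ⟨j, h1, h2, h3, ha⟩) haS b (Or.inr ⟨j, h1, h2, h3, hb⟩) hab
    have htx : ∀ j, 1 ≤ j → j < L → asg pa X j = i → ∃ a ∈ D j, G.Adj a (x i) := by
      intro j h1 h2 h3
      rcases asg_cases pa X j with h | ⟨h, -, -⟩
      · rw [h] at h3
        rw [← h3]
        exact hc.touch j h1 h2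
      · rw [h] at h3
        rw [← h3]
        exact hc.touch_pa j h1 h2
    have hxS : x i ∈ S := by
      rcases hmD hv with h | ⟨j, h1, h2, h3, h4⟩
      · rwa [← h]
      · obtain ⟨a, ha, hax⟩ := htx j h1 h2 h3
        have h5 := hDS j h1 h2 h3 ⟨v, h4, hvS⟩
        exact hS a (Or.inr ⟨j, h1, h2, h3, ha⟩) (h5 ha) (x i) (Or.inl rfl) hax
    rintro v (h | ⟨j, h1, h2, h3, h4⟩)
    · rwa [h]
    · obtain ⟨a, ha, hax⟩ := htx j h1 h2 h3
      exact hDS j h1 h2 h3 ⟨a, ha, hS (x i) (Or.inl rfl) hxS a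
        (Or.inr ⟨j, h1, h2, h3, ha⟩) hax.symm⟩ h4
  · -- disjointness
    intro i hi i' hi' hne
    rw [Set.disjoint_left]
    rintro v (h | ⟨j, h1, h2, h3, h4⟩) (h' | ⟨j', h1', h2', h3', h4'⟩)
    · exact (hc.ne i hi i' hi' hne).1 (h ▸ h')
    · exact hc.xD j' h1' h2' i hi (h ▸ h4')
    · exact hc.xD j h1 h2 i' hi' (h' ▸ h4)
    · have hjj : j ≠ j' := by
        rintro rfl
        exact hne (h3 ▸ h3')
      exact (hc.antiD j h1 h2 j' h1' h2' hjj v h4 v h4').1 rfl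
  · -- adjacency to the parent
    intro j hj h1
    have hp := hpa j h1
    rcases asg_cases pa X j with h | ⟨h, -, -⟩
    · obtain ⟨a, ha, hax⟩ := hc.touch_pa j h1 hj
      exact ⟨x (pa j), Or.inl rfl, a, Or.inr ⟨j, h1, hj, h, ha⟩, hax.symm⟩
    · obtain ⟨a, ha, hax⟩ := hc.touch j h1 hj
      exact ⟨a, Or.inr ⟨j, h1, hj, h, ha⟩, x j, Or.inl rfl, hax⟩
  · -- no other adjacency
    intro j hj i hi hip
    rintro a (h | ⟨l, h1, h2, h3, h4⟩) b (h' | ⟨l', h1', h2', h3', h4'⟩) hab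
    · rw [h, h'] at hab
      exact (hc.ne i (by omega) j hj (by omega)).2 hab
    · rw [h] at hab
      refine hc.anti l' h1' h2' i (by omega) ?_ ?_ b h4' hab.symm
      · rintro rfl
        rcases asg_cases pa X l' with h5 | ⟨h5, -, -⟩
        · rw [h5] at h3'
          exact hip (by rw [h3'])
        · omega
      · rintro rfl
        have := hpa i h1'
        rcases asg_cases pa X i with h5 | ⟨h5, -, -⟩ <;> omega
    · rw [h'] at hab
      refine hc.anti l h1 h2 j hj ?_ ?_ a h4 hab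
      · rintro rfl
        have := hpa l h1
        rcases asg_cases pa X l with h5 | ⟨h5, -, -⟩ <;> omega
      · rintro rfl
        have := hpa j h1
        rcases asg_cases pa X j with h5 | ⟨h5, -, -⟩
        · omega
        · exact hip (by rw [← h3, h5])
    · have hll : l ≠ l' := by
        rintro rfl
        omega
      exact (hc.antiD l h1 h2 l' h1' h2' hll a h4 b h4').2 hab
  · -- the additional vertex is connected
    obtain ⟨a₀, ha₀⟩ := (hA.arena.conn hH).1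
    refine ⟨⟨a₀, Or.inl ha₀⟩, ?_⟩
    rintro S ⟨v, hv, hvS⟩ hS
    have hAS : (∃ a ∈ A, a ∈ S) → A ⊆ S := fun h =>
      (hA.arena.conn hH).2 S h fun a ha haS b hb hab => hS a (Or.inl ha) haS b (Or.inl hb) hab
    have hBS : ∀ i < L, i ∈ X → (∃ a ∈ Bp i, a ∈ S) → Bp i ⊆ S := fun i hi hiX h =>
      (hc.connB i hi hiX).2 S h fun a ha haS b hb hab =>
        hS a (Or.inr ⟨i, hi, hiX, Or.inl ha⟩) haS b (Or.inr ⟨i, hi, hiX, Or.inl hb⟩) hab
    have hcm : ∀ i < L, i ∈ X → c i ∈ hubX X L A Bp c := fun i hi hiX =>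
      Or.inr ⟨i, hi, hiX, Or.inr rfl⟩
    have hcA : ∀ i < L, i ∈ X → (c i ∈ S ↔ A ⊆ S) := by
      intro i hi hiX
      obtain ⟨-, ⟨-, a, ha, hac⟩, -⟩ := hcc i hi hiX
      constructor
      · intro h
        exact hAS ⟨a, ha, hS (c i) (hcm i hi hiX) h a (Or.inl ha) hac.symm⟩
      · intro h
        exact hS a (Or.inl ha) (h ha) (c i) (hcm i hi hiX) hac
    have hcB : ∀ i < L, i ∈ X → (c i ∈ S ↔ Bp i ⊆ S) := by
      intro i hi hiX
      obtain ⟨h1, -, -⟩ := hcc i hi hiX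
      rcases hc.CB i hi hiX h1 with h2 | ⟨b, hb, hbc⟩
      · exact ⟨fun h => hBS i hi hiX ⟨c i, h2, h⟩, fun h => h h2⟩
      · constructor
        · intro h
          exact hBS i hi hiX ⟨b, hb, hS (c i) (hcm i hi hiX) h b
            (Or.inr ⟨i, hi, hiX, Or.inl hb⟩) hbc.symm⟩
        · intro h
          exact hS b (Or.inr ⟨i, hi, hiX, Or.inl hb⟩) (h hb) (c i) (hcm i hi hiX) hbc
    have hA' : A ⊆ S := by
      rcases hv with hv | ⟨i, hi, hiX, hv | hv⟩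
      · exact hAS ⟨v, hv, hvS⟩
      · exact (hcA i hi hiX).1 ((hcB i hi hiX).2 (hBS i hi hiX ⟨v, hv, hvS⟩))
      · rw [hv] at hvS
        exact (hcA i hi hiX).1 hvS
    rintro v (hv | ⟨i, hi, hiX, hv | hv⟩)
    · exact hA' hv
    · exact (hcB i hi hiX).1 ((hcA i hi hiX).2 hA') hv
    · rw [hv]
      exact (hcA i hi hiX).2 hA'
  · -- adjacency of the additional vertex
    intro i hi
    refine ⟨?_, ?_, ?_⟩
    · rw [Set.disjoint_left]
      rintro v (hv | ⟨i', hi', hiX', hv | hv⟩) (h | ⟨j, h1, h2, h3, h4⟩)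
      · exact hc.xA i hi (h ▸ hA.sub hv)
      · exact (hAD j h1 h2 v hv).1 h4
      · exact hc.xB' i' hi' hiX' i hi (h ▸ hv)
      · exact (hc.antiB i' hi' hiX' j h1 h2 v hv v h4).1 rfl
      · exact (hcx i' hi' hiX' i hi).1 (hv ▸ h)
      · obtain ⟨h5, -, -⟩ := hcc i' hi' hiX'
        exact Set.disjoint_left.1 (hc.CD i' hi' hiX' j h1 h2) h5 (hv ▸ h4)
    · intro hiX
      obtain ⟨a, ha, hax⟩ := hc.xB i hi hiX
      exact ⟨a, Or.inr ⟨i, hi, hiX, Or.inl ha⟩, x i, Or.inl rfl, hax⟩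
    · rintro hiX z (hz | ⟨i', hi', hiX', hz | hz⟩) a (h | ⟨j, h1, h2, h3, h4⟩) hza
      · rw [h] at hza
        exact (hAx i hi hiX).2 z hz hza
      · exact (hAD j h1 h2 z hz).2 a h4 hza
      · rw [h] at hza
        exact hc.farB i' hi' hiX' i hi hiX z hz hza
      · exact (hc.antiB i' hi' hiX' j h1 h2 z hz a h4).2 hza
      · rw [hz, h] at hza
        exact (hcx i' hi' hiX' i hi).2 hza
      · rw [← h3] at hiX
        obtain ⟨-, h6, h7⟩ := asg_notMem hiX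
        obtain ⟨h5, -, -⟩ := hcc i' hi' hiX'
        rw [hz] at hza
        exact Set.disjoint_left.1 (hc.CDX i' hi' hiX' j h1 h2 h6 h7) h5
          (Or.inr ⟨a, h4, hza.symm⟩)

end Pool.Agent.H31X
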